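import Mathlib

namespace Pool.Agent.Results.MP_091ced_gt.SecondDerivedClosed

open Set Topology

/-- `x` is an accumulation point of `A` iff every open set containing `x` meets `A \ {x}`. -/
lemma mem_derived {X : Type*} [TopologicalSpace X] {A : Set X} {x : X} :
    x ∈ derivedSet A ↔ x ∈ closure (A \ {x}) := by
  rw [mem_derivedSet, accPt_principal_iff_clusterPt, mem_closure_iff_clusterPt]

/-- In every `T₀`-space the second derived set of every subset is closed. -/
theorem result (X : Type*) [TopologicalSpace X] [T0Space X] (A : Set X) :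
    IsClosed (derivedSet (derivedSet A)) := by
  rw [← closure_subset_iff_isClosed]
  intro x hx
  by_contra hxB
  rw [mem_derived, mem_closure_iff] at hxB
  push Not at hxB
  obtain ⟨U, hU, hxU, hUB⟩ := hxB
  obtain ⟨y, hyU, hy⟩ := mem_closure_iff.1 hx U hU hxU
  rw [mem_derived, mem_closure_iff] at hy
  have hB : ∀ z ∈ U, z ∈ derivedSet A → z = x := by
    intro z hz hzB
    by_contra hne
    have : z ∈ U ∩ (derivedSet A \ {x}) := ⟨hz, hzB, hne⟩
    rw [hUB] at this
    exact this
  -- every open set containing `y` contains `x`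
  obtain ⟨z, hzU, hzB, hzy⟩ := hy U hU hyU
  have hzx := hB z hzU hzB
  subst hzx
  have hyx : y ≠ z := fun h => hzy h.symm
  have h1 : ∀ V, IsOpen V → y ∈ V → z ∈ V := by
    intro V hV hyV
    obtain ⟨w, ⟨hwV, hwU⟩, hwB, _⟩ := hy (V ∩ U) (hV.inter hU) ⟨hyV, hyU⟩
    rw [← hB w hwU hwB]
    exact hwV
  have hyB : y ∉ derivedSet A := fun h => hyx (hB y hyU h)
  rw [mem_derived, mem_closure_iff] at hyB
  push Not at hyB
  obtain ⟨W, hW, hyW, hWA⟩ := hyB
  have hzW := h1 W hW hyW
  rw [mem_derived, mem_closure_iff] at hzB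
  have h2 : ∀ V, IsOpen V → z ∈ V → y ∈ V := by
    intro V hV hzV
    obtain ⟨w, ⟨hwV, hwW⟩, hwA, _⟩ := hzB (V ∩ W) (hV.inter hW) ⟨hzV, hzW⟩
    by_contra hyV
    have hwy : w ≠ y := fun h => hyV (h ▸ hwV)
    have : w ∈ W ∩ (A \ {y}) := ⟨hwW, hwA, hwy⟩
    rw [hWA] at this
    exact this
  apply hyx
  apply (inseparable_iff_forall_isOpen.2 fun V hV => ⟨h1 V hV, h2 V hV⟩ : Inseparable y z).eq

end Pool.Agent.Results.MP_091ced_gt.SecondDerivedClosed
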